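import Pool.Agent.Helper7_MWGX.DMI

/-!
# Row EXS of block MWGX
-/

set_option autoImplicit false

namespace Pool.Agent.MWGX.H7

open Pool.Agent.Helper14_MV Pool.Agent.Helper2_MV
open Pool.Agent.MWK (pre)
open Pool.Agent.MWF (gaml)
open Pool.Agent.MWGN (nn)
open Pool.Agent.MWGQ (pw Gn)
open Pool.Agent.MWGR (X It Kaba F1 Dm Ec Es Ea Al0 Rh FE)

theorem count_gL (n c : ℕ) (Z A B : List ℕ) (d : ℕ) :
    (gL n c Z A B).count d = (3 * n + c) * Z.count d + A.count d + B.count d := by
  unfold gL
  simp only [List.count_append, count_pw]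
  ring

theorem count_gR (n c : ℕ) (hn : 1 ≤ n) (Z A B : List ℕ) (d : ℕ) :
    (gR n c Z A B).count d = (3 * n + c) * Z.count d + n * c * Z.count d + A.count d +
      B.count d := by
  unfold gR
  obtain ⟨m, rfl⟩ : ∃ m, n = m + 1 := ⟨n - 1, by omega⟩
  simp only [List.count_append, count_pw, Nat.add_sub_cancel]
  ring

theorem exs : ExsStmt := by
  intro n c p Z A B F G H w w' hn hE
  obtain ⟨hw, hw'⟩ := hE
  set R : List ℕ := F ++ (A ++ (G ++ (B ++ H))) with hR
  have CR : ∀ d, A.count d + B.count d ≤ R.count d := by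
    intro d
    rw [hR]
    simp only [List.count_append]
    omega
  clear_value R
  have C : ∀ d, w.count d = p.count d + ((3 * n + c) * Z.count d + A.count d + B.count d) +
      R.count d := by
    intro d
    rw [hw, List.count_append, List.count_append, count_gL]
    ring
  have C' : ∀ d, w'.count d = p.count d + ((3 * n + c) * Z.count d + n * c * Z.count d +
      A.count d + B.count d) + R.count d := by
    intro d
    rw [hw', List.count_append, List.count_append, count_gR n c hn]
    ring
  -- letters of Z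
  have hz : ∀ d, Z.count d = 0 ∨ 3 ≤ (3 * n + c) * Z.count d := by
    intro d
    rcases Nat.eq_zero_or_pos (Z.count d) with h | h
    · exact Or.inl h
    · right
      calc 3 ≤ (3 * n + c) * 1 := by omega
        _ ≤ (3 * n + c) * Z.count d := Nat.mul_le_mul_left _ h
  have hs : ∀ s, w.count s = 1 → Z.count s = 0 ∧ A.count s = 0 ∧ B.count s = 0 := by
    intro s h1
    rw [C] at h1
    have := CR s
    rcases hz s with h | h
    · refine ⟨h, ?_, ?_⟩ <;> omega
    · omega
  have NP : ∀ s, w.count s = 1 → s ∈ p → ∀ d, nn w d s = nn p d s ∧ nn w' d s = nn p d s := by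
    intro s _ hp d
    rw [hw, hw', nn_in hp, nn_in hp]
    exact ⟨rfl, rfl⟩
  have NR : ∀ s, w.count s = 1 → s ∉ p → ∀ d,
      nn w d s = p.count d + ((3 * n + c) * Z.count d + A.count d + B.count d) + nn R d s ∧
      nn w' d s = p.count d + ((3 * n + c) * Z.count d + n * c * Z.count d + A.count d +
        B.count d) + nn R d s := by
    intro s h1 hp d
    obtain ⟨a1, a2, a3⟩ := hs s h1
    have g1 : s ∉ gL n c Z A B := by
      rw [← List.count_eq_zero, count_gL, a1, a2, a3]
      ring
    have g2 : s ∉ gR n c Z A B := by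
      rw [← List.count_eq_zero, count_gR n c hn, a1, a2, a3]
      ring
    rw [hw, hw', nn_out hp, nn_out hp, nn_out g1, nn_out g2, count_gL, count_gR n c hn]
    constructor <;> ring
  have hz0 : ∀ d, Z.count d = 0 → n * c * Z.count d = 0 := by
    intro d h; rw [h, Nat.mul_zero]
  refine ⟨⟨?_, ?_, ?_, ?_, ?_⟩, ?_, ?_⟩
  · intro d
    rw [C, C']
    rcases hz d with h | h
    · rw [hz0 d h]; omega
    · omega
  · intro d
    rw [C, C']
    rcases hz d with h | h
    · rw [hz0 d h]; omega
    · omega
  · intro s h1 d _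
    by_cases hp : s ∈ p
    · rw [(NP s h1 hp d).1, (NP s h1 hp d).2]
    · rw [(NR s h1 hp d).1, (NR s h1 hp d).2]
      rcases hz d with h | h
      · rw [hz0 d h]; omega
      · omega
  · intro s h1 d _
    by_cases hp : s ∈ p
    · rw [(NP s h1 hp d).1, (NP s h1 hp d).2]
    · rw [(NR s h1 hp d).1, (NR s h1 hp d).2]
      rcases hz d with h | h
      · rw [hz0 d h]; omega
      · omega
  · intro s h1 d _
    have l1 := nn_le p d s
    have l2 := nn_le R d s
    by_cases hp : s ∈ p
    · rw [(NP s h1 hp d).1, (NP s h1 hp d).2, C, C']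
      rcases hz d with h | h
      · rw [hz0 d h]; omega
      · omega
    · rw [(NR s h1 hp d).1, (NR s h1 hp d).2, C, C']
      omega
  · intro s t h1 h2 d _ _
    have l1 := nn_le p d s
    have l2 := nn_le p d t
    by_cases hp : s ∈ p
    · rw [(NP s h1 hp d).1, (NP s h1 hp d).2]
      by_cases hq : t ∈ p
      · rw [(NP t h2 hq d).1, (NP t h2 hq d).2]
      · rw [(NR t h2 hq d).1, (NR t h2 hq d).2]
        rcases hz d with h | h
        · rw [hz0 d h]; omega
        · omega
    · rw [(NR s h1 hp d).1, (NR s h1 hp d).2]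
      by_cases hq : t ∈ p
      · rw [(NP t h2 hq d).1, (NP t h2 hq d).2]
        rcases hz d with h | h
        · rw [hz0 d h]; omega
        · omega
      · rw [(NR t h2 hq d).1, (NR t h2 hq d).2]
        omega
  · intro d
    rw [C, C']
    have e : p.count d + ((3 * n + c) * Z.count d + n * c * Z.count d + A.count d + B.count d) +
        R.count d = (p.count d + ((3 * n + c) * Z.count d + A.count d + B.count d) +
          R.count d) + n * (c * Z.count d) := by ring
    rw [e]
    unfold Nat.ModEq
    rw [Nat.add_mul_mod_self_left]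

end Pool.Agent.MWGX.H7
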