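import Pool.Agent.MWGX.StmtsB
import Pool.Agent.MWGN.StmtsA

/-!
# Squad MWGX (MP_23468a_al): the row NOE (helper7)
-/

set_option autoImplicit false

namespace Pool.Agent.MWGX.H7

open Pool.Agent.Helper14_MV Pool.Agent.Helper2_MV
open Pool.Agent.MWK (pre pre_split not_mem_pre mem_split pre_append_mem)
open Pool.Agent.MWGN (nn Nm WC WT Tau Ns nl sg)
open Pool.Agent.MWGX

/-- the filtered initial part -/
theorem pre_filter (g : ℕ → Bool) (w : List ℕ) (q : ℕ) (hq : g q = true) (hw : q ∈ w) :
    pre (w.filter g) q = (pre w q).filter g := by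
  obtain ⟨B, hB⟩ := mem_split hw
  have h1 : w.filter g = (pre w q).filter g ++ q :: B.filter g := by
    conv_lhs => rw [hB]
    rw [List.filter_append, List.filter_cons_of_pos hq]
  rw [h1, pre_split]
  intro h
  exact not_mem_pre w q (List.mem_of_mem_filter h)

/-- splitting a list in front of a letter which occurs in neither of the first parts -/
theorem split_eq {A A' B B' : List ℕ} {y : ℕ} (h : y ∉ A) (h' : y ∉ A')
    (e : A ++ y :: B = A' ++ y :: B') : A = A' ∧ B = B' := by
  have h1 : A = A' := by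
    have := congrArg (fun l => pre l y) e
    simpa only [pre_split h, pre_split h'] using this
  subst h1
  have := List.append_cancel_left e
  exact ⟨rfl, (List.cons.inj this).2⟩

theorem all_rep {g : ℕ → Bool} {e : ℕ} {l : List ℕ} (hl : ∀ d ∈ l, d = e ∨ g d = true)
    (h : ∀ d ∈ l, ¬ g d = true) : l = List.replicate l.length e := by
  rw [List.eq_replicate_iff]
  exact ⟨rfl, fun d hd => (hl d hd).resolve_right (h d hd)⟩

/-- two marked letters -/
theorem two_form {g : ℕ → Bool} {e u v : ℕ} {Q : List ℕ} (hl : ∀ d ∈ Q, d = e ∨ g d = true)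
    (h : Q.filter g = [u, v]) : ∃ i1 i2 i3 : ℕ, Q = List.replicate i1 e ++
      u :: (List.replicate i2 e ++ v :: List.replicate i3 e) := by
  obtain ⟨l1, l2, e1, n1, _, f1⟩ := List.filter_eq_cons_iff.1 h
  obtain ⟨l3, l4, e2, n2, _, f2⟩ := List.filter_eq_cons_iff.1 f1
  have n3 : ∀ d ∈ l4, ¬ g d = true := List.filter_eq_nil_iff.1 f2
  have k1 : l1 = List.replicate l1.length e :=
    all_rep (fun d hd => hl d (by rw [e1]; simp [hd])) n1
  have k3 : l3 = List.replicate l3.length e :=
    all_rep (fun d hd => hl d (by rw [e1, e2]; simp [hd])) n2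
  have k4 : l4 = List.replicate l4.length e :=
    all_rep (fun d hd => hl d (by rw [e1, e2]; simp [hd])) n3
  refine ⟨l1.length, l3.length, l4.length, ?_⟩
  rw [← k1, ← k3, ← k4, e1, e2]

/-- one of the two orders -/
theorem ord_form {ν : Nm} {e m u v : ℕ} {w B T P : List ℕ} (hu : u ∈ nl ν m) (hv : v ∈ nl ν m)
    (ha : ν.a ∈ nl ν m) (he : e ∉ nl ν m) (huv : u ≠ v) (hP : P = [u, v])
    (hw : w = pre w ν.a ++ ν.a :: B)
    (hB : B.filter (fun d => decide (d = e ∨ d ∈ nl ν m)) = T)
    (hp : (pre w ν.a).filter (fun d => decide (d ∈ nl ν m)) = P) :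
    ∃ i1 i2 i3 : ℕ, i1 = nn w e u ∧ i1 + i2 = nn w e v ∧
      w.filter (fun d => decide (d = e ∨ d ∈ nl ν m)) = List.replicate i1 e ++
        u :: (List.replicate i2 e ++ v :: (List.replicate i3 e ++ ν.a :: T)) := by
  subst hP
  have hQ : ((pre w ν.a).filter (fun d => decide (d = e ∨ d ∈ nl ν m))).filter
      (fun d => decide (d ∈ nl ν m)) = [u, v] := by
    rw [List.filter_filter, ← hp]
    refine List.filter_congr fun d _ => ?_
    by_cases hd : d ∈ nl ν m <;> simp [hd]
  obtain ⟨i1, i2, i3, hform⟩ := two_form (g := fun d => decide (d ∈ nl ν m)) (e := e)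
    (fun d hd => by simpa using (List.mem_filter.1 hd).2) hQ
  have hue : u ≠ e := fun h => he (h ▸ hu)
  have hve : v ≠ e := fun h => he (h ▸ hv)
  have hfull : w.filter (fun d => decide (d = e ∨ d ∈ nl ν m)) = List.replicate i1 e ++
        u :: (List.replicate i2 e ++ v :: (List.replicate i3 e ++ ν.a :: T)) := by
    conv_lhs => rw [hw]
    rw [List.filter_append, List.filter_cons_of_pos (by simp [ha]), hform, hB]
    simp
  have hup : u ∈ pre w ν.a := by
    have : u ∈ (pre w ν.a).filter (fun d => decide (d ∈ nl ν m)) := by rw [hp]; simp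
    exact List.mem_of_mem_filter this
  have hvp : v ∈ pre w ν.a := by
    have : v ∈ (pre w ν.a).filter (fun d => decide (d ∈ nl ν m)) := by rw [hp]; simp
    exact List.mem_of_mem_filter this
  have huw : u ∈ w := Pool.Agent.MWK.mem_of_mem_pre hup
  have hvw : v ∈ w := Pool.Agent.MWK.mem_of_mem_pre hvp
  have hcount : ∀ q : ℕ, q ∈ nl ν m → q ∈ w →
      nn w e q = (pre (w.filter (fun d => decide (d = e ∨ d ∈ nl ν m))) q).count e := by
    intro q hq hqw
    rw [pre_filter _ w q (by simp [hq]) hqw, List.count_filter (by simp)]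
    rfl
  refine ⟨i1, i2, i3, ?_, ?_, hfull⟩
  · rw [hcount u hu huw, hfull, pre_split (by
      intro h
      exact hue (List.eq_of_mem_replicate h))]
    simp
  · rw [hcount v hv hvw, hfull]
    have : List.replicate i1 e ++
        u :: (List.replicate i2 e ++ v :: (List.replicate i3 e ++ ν.a :: T)) =
        (List.replicate i1 e ++ u :: List.replicate i2 e) ++
          v :: (List.replicate i3 e ++ ν.a :: T) := by simp
    rw [this, pre_split (by
      intro h
      rcases List.mem_append.1 h with h | h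
      · exact hve (List.eq_of_mem_replicate h)
      · rcases List.mem_cons.1 h with h | h
        · exact huv h.symm
        · exact hve (List.eq_of_mem_replicate h))]
    simp [hue]

theorem noe (h1 : Pool.Agent.MWGN.NoaStmt) : NoeStmt := by
  intro ν e τ m nc hNs hτ hm he w hC hT hea
  obtain ⟨i, j, c, f, hi, hj, hc, hf, P, hP, hfil⟩ := h1 ν τ m nc hNs hτ hm w hC hT
  have hax : ν.a ≠ ν.x := by
    intro h
    have h2 := hC.x2
    rw [← h, hC.sa] at h2
    omega
  have hay : ν.a ≠ ν.y := by
    intro h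
    have h2 := hC.y2
    rw [← h, hC.sa] at h2
    omega
  have ha : ν.a ∈ nl ν m := by simp [nl]
  have hx : ν.x ∈ nl ν m := by simp [nl]
  have hy : ν.y ∈ nl ν m := by simp [nl]
  have haw : ν.a ∈ w := List.count_pos_iff.1 (by rw [hC.sa]; exact Nat.one_pos)
  obtain ⟨B, hB⟩ := mem_split haw
  have hfw : w.filter (fun d => decide (d ∈ nl ν m)) =
      (pre w ν.a).filter (fun d => decide (d ∈ nl ν m)) ++
        ν.a :: B.filter (fun d => decide (d ∈ nl ν m)) := by
    conv_lhs => rw [hB]
    rw [List.filter_append, List.filter_cons_of_pos (by simp [ha])]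
  have haP : ν.a ∉ P := by
    rcases hP with ⟨_, h⟩ | ⟨_, h⟩ <;> rw [h] <;> simp [hax, hay]
  have hfil' : w.filter (fun d => decide (d ∈ nl ν m)) = P ++ ν.a :: tlN ν τ m i j c f := hfil
  obtain ⟨hpP, hBT⟩ := split_eq (fun h => not_mem_pre w ν.a (List.mem_of_mem_filter h)) haP
    (hfw.symm.trans hfil')
  -- the letter `e` does not occur behind `a`
  have heB : e ∉ B := by
    intro h
    have h2 : w.count e = (pre w ν.a).count e + (ν.a :: B).count e := by
      conv_lhs => rw [hB]
      rw [List.count_append]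
    have h3 : 0 < (ν.a :: B).count e := List.count_pos_iff.2 (List.mem_cons_of_mem _ h)
    have h4 : (pre w ν.a).count e = w.count e := hea
    omega
  have hBe : B.filter (fun d => decide (d = e ∨ d ∈ nl ν m)) = tlN ν τ m i j c f := by
    rw [← hBT]
    refine List.filter_congr fun d hd => ?_
    have : d ≠ e := fun h => heB (h ▸ hd)
    simp [this]
  have hxy : ν.x ≠ ν.y := by
    intro h
    have h2 : (pre w ν.a).count ν.x = 1 := hC.xa
    have h3 : ((pre w ν.a).filter (fun d => decide (d ∈ nl ν m))).count ν.x =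
        (pre w ν.a).count ν.x := List.count_filter (by simp [hx])
    rw [hpP, h2] at h3
    rcases hP with ⟨_, h4⟩ | ⟨_, h4⟩ <;> rw [h4, ← h] at h3 <;> simp at h3
  by_cases hn : nn w ν.x ν.y = 1
  · have hP' : P = [ν.x, ν.y] := by
      rcases hP with ⟨_, h⟩ | ⟨h0, _⟩
      · exact h
      · omega
    obtain ⟨i1, i2, i3, q1, q2, q3⟩ := ord_form hx hy ha he hxy hP' hB hBe hpP
    exact ⟨i1, i2, i3, i, j, c, f, hi, hj, hc, hf, ⟨P, Or.inl hP', hfil'⟩,
      fun _ => ⟨q1, q2, q3⟩, fun h => absurd hn h⟩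
  · have hP' : P = [ν.y, ν.x] := by
      rcases hP with ⟨h0, _⟩ | ⟨_, h⟩
      · exact absurd h0 hn
      · exact h
    obtain ⟨i1, i2, i3, q1, q2, q3⟩ := ord_form hy hx ha he hxy.symm hP' hB hBe hpP
    exact ⟨i1, i2, i3, i, j, c, f, hi, hj, hc, hf, ⟨P, Or.inr hP', hfil'⟩,
      fun h => absurd h hn, fun _ => ⟨q1, q2, q3⟩⟩

end Pool.Agent.MWGX.H7
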