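import Pool.Agent.MWGX.StmtsA

/-!
# Row DMI of block MWGX
-/

set_option autoImplicit false

namespace Pool.Agent.MWGX.H7

open Pool.Agent.Helper14_MV Pool.Agent.Helper2_MV
open Pool.Agent.MWK (pre)
open Pool.Agent.MWF (gaml)
open Pool.Agent.MWGN (nn)
open Pool.Agent.MWGQ (pw Gn)
open Pool.Agent.MWGR (X It Kaba F1 Dm Ec Es Ea Al0 Rh FE)

theorem nn_in {A : List ℕ} {y : ℕ} (h : y ∈ A) (B : List ℕ) (d : ℕ) :
    nn (A ++ B) d y = nn A d y := by
  unfold nn
  rw [MWK.pre_append_mem h]

theorem nn_out {A : List ℕ} {y : ℕ} (h : y ∉ A) (B : List ℕ) (d : ℕ) :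
    nn (A ++ B) d y = A.count d + nn B d y := by
  unfold nn
  rw [MWK.pre_append h, List.count_append]

theorem nn_le (w : List ℕ) (d y : ℕ) : nn w d y ≤ w.count d := MWK.count_pre_le w d y

theorem mem_pw_iff {k y : ℕ} {Z : List ℕ} (hk : 1 ≤ k) : y ∈ pw k Z ↔ y ∈ Z := by
  constructor
  · exact mem_pw
  · intro h
    obtain ⟨j, rfl⟩ : ∃ j, k = j + 1 := ⟨k - 1, by omega⟩
    rw [pw_succ]
    exact List.mem_append_left _ h

theorem nn_pw {k y : ℕ} {Z : List ℕ} (hk : 1 ≤ k) (hy : y ∈ Z) (d : ℕ) :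
    nn (pw k Z) d y = nn Z d y := by
  obtain ⟨j, rfl⟩ : ∃ j, k = j + 1 := ⟨k - 1, by omega⟩
  rw [pw_succ, nn_in hy]

/-- the numbers for the words of `Dm` -/
theorem dm_nn (a b : ℕ) (ha : 1 ≤ a) (hb : 1 ≤ b)
    (p Z A R : List ℕ) (d y : ℕ) :
    nn (p ++ (pw a Z ++ (A ++ (pw b Z ++ R)))) d y =
      if y ∈ p then nn p d y else if y ∈ Z then p.count d + nn Z d y else
        if y ∈ A then p.count d + (a * Z.count d + nn A d y) else
          p.count d + (a * Z.count d + (A.count d + (b * Z.count d + nn R d y))) := by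
  by_cases h1 : y ∈ p
  · rw [if_pos h1, nn_in h1]
  rw [if_neg h1, nn_out h1]
  by_cases h2 : y ∈ Z
  · rw [if_pos h2, nn_in ((mem_pw_iff ha).2 h2), nn_pw ha h2]
  rw [if_neg h2, nn_out (fun h => h2 ((mem_pw_iff ha).1 h)), count_pw]
  by_cases h3 : y ∈ A
  · rw [if_pos h3, nn_in h3]
  rw [if_neg h3, nn_out h3, nn_out (fun h => h2 ((mem_pw_iff hb).1 h)), count_pw]

theorem dmi : DmiStmt := by
  intro n m p Z A F H w w' hn hw hw'
  have N1 : ∀ d y, nn w d y = if y ∈ p then nn p d y else if y ∈ Z then p.count d + nn Z d y else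
        if y ∈ A then p.count d + ((n + m) * Z.count d + nn A d y) else
          p.count d + ((n + m) * Z.count d +
            (A.count d + (n * Z.count d + nn (F ++ (A ++ H)) d y))) := by
    intro d y
    rw [hw, dm_nn (n + m) n (by omega) hn]
  have N2 : ∀ d y, nn w' d y = if y ∈ p then nn p d y else if y ∈ Z then p.count d + nn Z d y else
        if y ∈ A then p.count d + (n * Z.count d + nn A d y) else
          p.count d + (n * Z.count d +
            (A.count d + ((n + m) * Z.count d + nn (F ++ (A ++ H)) d y))) := by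
    intro d y
    rw [hw', dm_nn n (n + m) hn (by omega)]
  have C1 : ∀ d, w.count d = w'.count d := by
    intro d
    rw [hw, hw']
    simp only [List.count_append, count_pw]
    ring
  have hs : ∀ s, w.count s = 1 → s ∉ Z ∧ s ∉ A := by
    intro s h1
    rw [hw] at h1
    simp only [List.count_append, count_pw] at h1
    constructor
    · intro h
      have h2 := List.count_pos_iff.2 h
      have h3 : 1 ≤ n * Z.count s := Nat.mul_pos hn h2
      rw [Nat.add_mul] at h1
      omega
    · intro h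
      have h2 := List.count_pos_iff.2 h
      omega
  have E1 : ∀ s, w.count s = 1 → ∀ d, nn w d s = nn w' d s := by
    intro s h1 d
    obtain ⟨hZ, hA⟩ := hs s h1
    rw [N1, N2, if_neg hZ, if_neg hZ, if_neg hA, if_neg hA]
    by_cases hp : s ∈ p
    · rw [if_pos hp, if_pos hp]
    · rw [if_neg hp, if_neg hp]
      ring
  refine ⟨⟨?_, ?_, ?_, ?_, ?_⟩, ?_, ?_, ?_⟩
  · intro d; rw [C1]
  · intro d; rw [C1]
  · intro s h1 d _; rw [E1 s h1]
  · intro s h1 d _; rw [E1 s h1]
  · intro s h1 d _; rw [E1 s h1, C1]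
  · intro s t h1 h2 d _ _
    rw [E1 s h1, E1 t h2]
  · intro q1 q2 s h1 _ _ e1 e2
    obtain ⟨hZ, hA⟩ := hs s h1
    rw [N1 q1 q2, N2 q1 q2]
    by_cases hp : q2 ∈ p
    · rw [if_pos hp, if_pos hp]
    rw [if_neg hp, if_neg hp]
    by_cases hz : q2 ∈ Z
    · rw [if_pos hz, if_pos hz]
    rw [if_neg hz, if_neg hz]
    by_cases ha : q2 ∈ A
    · rw [if_pos ha, if_pos ha]
      have hsp : s ∉ p := by
        intro hsp
        rw [N1 q2 s, if_pos hsp] at e2
        have := nn_le p q2 s
        have h0 : p.count q2 = 0 := List.count_eq_zero.2 hp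
        omega
      rw [N1 q1 s, if_neg hsp, if_neg hZ, if_neg hA, Nat.add_mul] at e1
      have h0 : Z.count q1 = 0 := by
        by_contra hcon
        have h3 : 1 ≤ n * Z.count q1 := Nat.mul_pos hn (Nat.pos_of_ne_zero hcon)
        omega
      rw [h0, Nat.mul_zero, Nat.mul_zero]
    · rw [if_neg ha, if_neg ha]
      ring
  · intro g hg d q
    obtain ⟨k, rfl⟩ := hg
    rw [N1 d q, N2 d q]
    by_cases hp : q ∈ p
    · rw [if_pos hp, if_pos hp]
    rw [if_neg hp, if_neg hp]
    by_cases hz : q ∈ Z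
    · rw [if_pos hz, if_pos hz]
    rw [if_neg hz, if_neg hz]
    by_cases ha : q ∈ A
    · rw [if_pos ha, if_pos ha]
      have e : p.count d + ((n + g * k) * Z.count d + nn A d q) =
          (p.count d + (n * Z.count d + nn A d q)) + g * (k * Z.count d) := by ring
      rw [e]
      unfold Nat.ModEq
      rw [Nat.add_mul_mod_self_left]
    · rw [if_neg ha, if_neg ha]
      have e : p.count d + ((n + g * k) * Z.count d +
          (A.count d + (n * Z.count d + nn (F ++ (A ++ H)) d q))) =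
        p.count d + (n * Z.count d + (A.count d + ((n + g * k) * Z.count d +
          nn (F ++ (A ++ H)) d q))) := by ring
      rw [e]

end Pool.Agent.MWGX.H7
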